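import Pool.Agent.K3h46.HP.Stm5

/-! Exterior powers of a sum of correspondences (brick ADDALT for helper46, by helper84). -/

set_option autoImplicit false

open Finset Pool.Agent.K3h46.HP

namespace Pool.Agent.K3h84.AA

/-- a signed sum of products with `M` rows coming from a correspondence with vanishing exterior
power vanishes -/
theorem block (X : Powers) (a : X.A 2) (M K : ℕ) (ha : X.altPower a M = 0)
    (h : Fin K → Fin K → X.A (K + K)) (s : Fin M ↪ Fin K)
    (hs : ∀ j v, h (s j) v = X.edge a (Fin.castAdd K (s j)) (Fin.natAdd K v)) :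
    ∑ σ : Equiv.Perm (Fin K), ((Equiv.Perm.sign σ : ℤ) : ℚ) • ∏ i : Fin K, h i (σ i) = 0 := by
  classical
  have hpart : ∀ (σ : Equiv.Perm (Fin K)) (τ : Equiv.Perm (Fin M)),
      ∏ i : Fin K, h i ((σ * τ.viaFintypeEmbedding s) i) =
        (∏ j : Fin M, X.edge a (Fin.castAdd K (s j)) (Fin.natAdd K (σ (s (τ j))))) *
          ∏ i ∈ (univ.map s)ᶜ, h i (σ i) := by
    intro σ τ
    rw [← Finset.prod_mul_prod_compl (univ.map s), Finset.prod_map]
    congr 1
    · refine Finset.prod_congr rfl fun j _ => ?_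
      rw [Equiv.Perm.mul_apply, Equiv.Perm.viaFintypeEmbedding_apply_image, hs]
    · refine Finset.prod_congr rfl fun i hi => ?_
      rw [Equiv.Perm.mul_apply, Equiv.Perm.viaFintypeEmbedding_apply_notMem_range]
      intro hr
      rw [Finset.mem_compl] at hi
      apply hi
      obtain ⟨j, rfl⟩ := hr
      exact Finset.mem_map_of_mem s (Finset.mem_univ j)
  have hinner : ∀ σ : Equiv.Perm (Fin K),
      ∑ τ : Equiv.Perm (Fin M), ((Equiv.Perm.sign τ : ℤ) : ℚ) •
        ∏ j : Fin M, X.edge a (Fin.castAdd K (s j)) (Fin.natAdd K (σ (s (τ j)))) = 0 := by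
    intro σ
    have h1 := congrArg (X.pull (Fin.addCases (motive := fun _ => Fin (K + K))
      (fun j : Fin M => Fin.castAdd K (s j)) (fun j : Fin M => Fin.natAdd K (σ (s j))))) ha
    rw [map_zero] at h1
    rw [← h1]
    unfold Powers.altPower
    rw [map_sum]
    refine Finset.sum_congr rfl fun τ _ => ?_
    rw [map_smul, map_prod]
    congr 1
    refine Finset.prod_congr rfl fun j _ => ?_
    rw [pull_edge, Fin.addCases_left, Fin.addCases_right]
  set S := ∑ σ : Equiv.Perm (Fin K), ((Equiv.Perm.sign σ : ℤ) : ℚ) • ∏ i : Fin K, h i (σ i) with hS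
  have hshift : ∀ τ : Equiv.Perm (Fin M), S = ∑ σ : Equiv.Perm (Fin K),
      ((Equiv.Perm.sign (σ * τ.viaFintypeEmbedding s) : ℤ) : ℚ) •
        ∏ i : Fin K, h i ((σ * τ.viaFintypeEmbedding s) i) := by
    intro τ
    rw [hS]
    exact (Equiv.sum_comp (Equiv.mulRight (τ.viaFintypeEmbedding s))
      (fun σ : Equiv.Perm (Fin K) => ((Equiv.Perm.sign σ : ℤ) : ℚ) • ∏ i : Fin K, h i (σ i))).symm
  have hsum : (Fintype.card (Equiv.Perm (Fin M)) : ℚ) • S = 0 := by
    calc (Fintype.card (Equiv.Perm (Fin M)) : ℚ) • S = ∑ _τ : Equiv.Perm (Fin M), S := by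
          rw [Finset.sum_const, Finset.card_univ, ← Nat.cast_smul_eq_nsmul ℚ]
      _ = ∑ τ : Equiv.Perm (Fin M), ∑ σ : Equiv.Perm (Fin K),
          ((Equiv.Perm.sign (σ * τ.viaFintypeEmbedding s) : ℤ) : ℚ) •
            ∏ i : Fin K, h i ((σ * τ.viaFintypeEmbedding s) i) :=
          Finset.sum_congr rfl fun τ _ => hshift τ
      _ = ∑ σ : Equiv.Perm (Fin K), ∑ τ : Equiv.Perm (Fin M),
          ((Equiv.Perm.sign (σ * τ.viaFintypeEmbedding s) : ℤ) : ℚ) •
            ∏ i : Fin K, h i ((σ * τ.viaFintypeEmbedding s) i) := Finset.sum_comm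
      _ = ∑ σ : Equiv.Perm (Fin K), ((Equiv.Perm.sign σ : ℤ) : ℚ) •
          ((∑ τ : Equiv.Perm (Fin M), ((Equiv.Perm.sign τ : ℤ) : ℚ) •
            ∏ j : Fin M, X.edge a (Fin.castAdd K (s j)) (Fin.natAdd K (σ (s (τ j))))) *
              ∏ i ∈ (univ.map s)ᶜ, h i (σ i)) := by
          refine Finset.sum_congr rfl fun σ _ => ?_
          rw [Finset.sum_mul, Finset.smul_sum]
          refine Finset.sum_congr rfl fun τ _ => ?_
          rw [hpart, map_mul, Equiv.Perm.viaFintypeEmbedding_sign, smul_mul_assoc, smul_smul]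
          push_cast
          rfl
      _ = 0 := by
          refine Finset.sum_eq_zero fun σ _ => ?_
          rw [hinner σ, zero_mul, smul_zero]
  rcases smul_eq_zero.1 hsum with h0 | h0
  · exfalso
    have : (0 : ℚ) < Fintype.card (Equiv.Perm (Fin M)) := by exact_mod_cast Fintype.card_pos
    linarith
  · exact h0

theorem edge_add (X : Powers) (a b : X.A 2) {n : ℕ} (i j : Fin n) :
    X.edge (a + b) i j = X.edge a i j + X.edge b i j := by
  unfold Powers.edge
  rw [map_add]

/-- an embedding into a large set -/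
theorem exists_emb {K M : ℕ} (t : Finset (Fin K)) (ht : M ≤ t.card) :
    ∃ s : Fin M ↪ Fin K, ∀ j, s j ∈ t := by
  obtain ⟨u, hu, hc⟩ := Finset.exists_subset_card_eq ht
  exact ⟨(u.orderEmbOfFin hc).toEmbedding, fun j => hu (Finset.orderEmbOfFin_mem u hc j)⟩

theorem t_AddAlt : StmAddAlt := by
  classical
  intro X a b M N ha hb
  obtain ⟨K, hK⟩ : ∃ K, K = M + N := ⟨_, rfl⟩
  rw [← hK]
  unfold Powers.altPower
  have h1 : ∀ σ : Equiv.Perm (Fin K),
      ∏ i : Fin K, X.edge (a + b) (Fin.castAdd K i) (Fin.natAdd K (σ i)) =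
        ∑ t ∈ (univ : Finset (Fin K)).powerset, ∏ i : Fin K,
          t.piecewise (fun i => X.edge a (Fin.castAdd K i) (Fin.natAdd K (σ i)))
            (fun i => X.edge b (Fin.castAdd K i) (Fin.natAdd K (σ i))) i := by
    intro σ
    rw [Finset.prod_congr rfl fun i _ => edge_add X a b _ _, Finset.prod_add]
    refine Finset.sum_congr rfl fun t _ => ?_
    rw [Finset.prod_piecewise, Finset.univ_inter]
  rw [Finset.sum_congr rfl fun σ _ => by rw [h1 σ, Finset.smul_sum], Finset.sum_comm]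
  refine Finset.sum_eq_zero fun t _ => ?_
  by_cases ht : M ≤ t.card
  · obtain ⟨s, hs⟩ := exists_emb t ht
    have h2 := block X a M K ha (fun i v => t.piecewise
      (fun i => X.edge a (Fin.castAdd K i) (Fin.natAdd K v))
      (fun i => X.edge b (Fin.castAdd K i) (Fin.natAdd K v)) i) s
      (fun j v => by rw [Finset.piecewise_eq_of_mem _ _ _ (hs j)])
    refine Eq.trans (Finset.sum_congr rfl fun σ _ => ?_) h2
    congr 1
  · have ht' : N ≤ tᶜ.card := by
      rw [Finset.card_compl, Fintype.card_fin]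
      omega
    obtain ⟨s, hs⟩ := exists_emb tᶜ ht'
    have h2 := block X b N K hb (fun i v => t.piecewise
      (fun i => X.edge a (Fin.castAdd K i) (Fin.natAdd K v))
      (fun i => X.edge b (Fin.castAdd K i) (Fin.natAdd K v)) i) s
      (fun j v => by rw [Finset.piecewise_eq_of_notMem _ _ _ (Finset.mem_compl.1 (hs j))])
    refine Eq.trans (Finset.sum_congr rfl fun σ _ => ?_) h2
    congr 1

end Pool.Agent.K3h84.AA
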